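import Pool.Agent.Zk89.TorusManifold

/-!
# Metrics `C⁰`-close (even `C^∞`-close) to the metric of a torus of revolution which are not induced
by any immersion into `ℝ³`

The torus is `T² = ℝ²/(2πℤ)²`: functions, metrics and maps on `T²` are the doubly `2π`-periodic ones on
`ℝ²`, whose coordinates are denoted by `α`, `β`.

Let `0 < r < R` and let `g₀ = r² dα² + (R + r cos α)² dβ²` be the metric induced on `T²` by the
embedding `(α, β) ↦ ((R + r cos α) cos β, (R + r cos α) sin β, r sin α)`.
For every `t > 0` the metric `g₀ + t dα²` is not induced by any `C³` map `T² → ℝ³`. These metrics are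
arbitrarily close to `g₀` in `C⁰` (and in every `C^k`, as `g₀ + t dα²` is affine in `t`), so the answer
to the question is negative.

Proof. The total positive curvature of `g₀ + t dα²` is `4π r / √(r² + t) < 4π`. But for a closed
surface in `ℝ³` the points of support have nonnegative curvature and their normals cover the unit
sphere, so that the total positive curvature is at least `4π`. In the formal proof the last inequality
is the area inequality for the map `(α, β, s) ↦ s n(α, β)` (`n` the unit normal), whose Jacobian is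
computed from the metric by the Gauss equation.
-/

set_option autoImplicit false

open Set
open scoped ContDiff Manifold

namespace Pool.Agent.Results.MP_665542_gt.TorusOfRevolution

/-- Doubly `2π`-periodic functions on `ℝ²`, that is, functions on the torus `ℝ²/(2πℤ)²`. -/
def DoublyPeriodic {X : Type} (f : ℝ × ℝ → X) : Prop :=
  ∀ x y : ℝ, f (x + 2 * Real.pi, y) = f (x, y) ∧ f (x, y + 2 * Real.pi) = f (x, y)

/-- Smooth Riemannian metrics on the torus `ℝ²/(2πℤ)²`: `coeff p` is the matrix
`(g(∂ᵢ, ∂ⱼ))` at the point `p`. -/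
structure Metric where
  /-- the matrix of the metric in the coordinates `α`, `β` -/
  coeff : ℝ × ℝ → Matrix (Fin 2) (Fin 2) ℝ
  /-- it is smooth -/
  smooth : ∀ i j, ContDiff ℝ ∞ fun p => coeff p i j
  /-- it is doubly periodic -/
  periodic : DoublyPeriodic coeff
  /-- it is symmetric and positive definite at every point -/
  posDef : ∀ p, (coeff p).PosDef

/-- The coordinate vector fields `∂₀ = ∂/∂α` and `∂₁ = ∂/∂β`. -/
def coordVec : Fin 2 → ℝ × ℝ := ![(1, 0), (0, 1)]

/-- The map `f` induces the metric `g`: `⟨∂ᵢ f, ∂ⱼ f⟩ = g(∂ᵢ, ∂ⱼ)`. -/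
def Induces (f : ℝ × ℝ → EuclideanSpace ℝ (Fin 3)) (g : Metric) : Prop :=
  ∀ (p : ℝ × ℝ) (i j : Fin 2),
    inner ℝ (fderiv ℝ f p (coordVec i)) (fderiv ℝ f p (coordVec j)) = g.coeff p i j

/-- `f` is a smooth isometric embedding of the torus with the metric `g` into `ℝ³`: it is smooth,
doubly periodic, injective modulo the periods, and induces `g` (so it is an immersion). -/
structure IsIsometricEmbedding (f : ℝ × ℝ → EuclideanSpace ℝ (Fin 3)) (g : Metric) : Prop where
  smooth : ContDiff ℝ ∞ f
  periodic : DoublyPeriodic f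
  injective : ∀ p q, f p = f q → ∃ m n : ℤ,
    q = (p.1 + m * (2 * Real.pi), p.2 + n * (2 * Real.pi))
  induces : Induces f g

/-- No map of class `C³` from the torus to `ℝ³` induces the metric `g`. -/
def NotImmersible (g : Metric) : Prop :=
  ∀ f : ℝ × ℝ → EuclideanSpace ℝ (Fin 3), ContDiff ℝ 3 f → DoublyPeriodic f → ¬ Induces f g

/-- The norm of the tensor `g - g₀` with respect to `g₀` at the point `p`, that is,
`|h|² = ∑ g₀^{ij} g₀^{kl} h_{jk} h_{li}` for `h = g - g₀`. -/
noncomputable def tensorNorm (g₀ g : Metric) (p : ℝ × ℝ) : ℝ :=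
  √((g₀.coeff p)⁻¹ * (g.coeff p - g₀.coeff p) * (g₀.coeff p)⁻¹ * (g.coeff p - g₀.coeff p)).trace

/-- The torus of revolution with radii `r < R`. -/
noncomputable def torusMap (R r : ℝ) (p : ℝ × ℝ) : EuclideanSpace ℝ (Fin 3) :=
  !₂[(R + r * Real.cos p.1) * Real.cos p.2, (R + r * Real.cos p.1) * Real.sin p.2,
    r * Real.sin p.1]

open Pool.Agent.Zk89.Torus

theorem posDef_diag (a b : ℝ) (ha : 0 < a) (hb : 0 < b) : (!![a, 0; 0, b]).PosDef := by
  have : (!![a, 0; 0, b] : Matrix (Fin 2) (Fin 2) ℝ) = Matrix.diagonal ![a, b] := by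
    ext i j
    fin_cases i <;> fin_cases j <;> simp
  rw [this]
  apply Matrix.PosDef.diagonal
  intro i
  fin_cases i <;> simpa

/-- The metric `(r² + t) dα² + (R + r cos α)² dβ²`. -/
noncomputable def metric (R r : ℝ) (hr : 0 < r) (hR : r < R) (t : ℝ) (ht : 0 ≤ t) : Metric where
  coeff p := !![r ^ 2 + t, 0; 0, (R + r * Real.cos p.1) ^ 2]
  smooth i j := by
    have h : ContDiff ℝ ∞ fun p : ℝ × ℝ => (R + r * Real.cos p.1) ^ 2 :=
      (contDiff_const.add (contDiff_const.mul (Real.contDiff_cos.comp contDiff_fst))).pow 2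
    fin_cases i <;> fin_cases j
    · exact contDiff_const
    · exact contDiff_const
    · exact contDiff_const
    · exact h
  periodic x y := by simp
  posDef p := by
    have h1 : 0 < R + r * Real.cos p.1 := by nlinarith [Real.neg_one_le_cos p.1]
    exact posDef_diag _ _ (by positivity) (by positivity)

theorem torusMap_eq (R r : ℝ) : torusMap R r = fun q => rev R r (par q) := by
  funext q
  rw [rev_par]
  rfl

theorem induces_torusMap (R r : ℝ) (hr : 0 < r) (hR : r < R) :
    Induces (torusMap R r) (metric R r hr hR 0 le_rfl) := by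
  intro p i j
  have h := inner_D_rev R r p (coordVec i) (coordVec j)
  rw [torusMap_eq]
  unfold D at h
  rw [h]
  fin_cases i <;> fin_cases j <;> simp [metric, coordVec]

theorem embedding_torusMap (R r : ℝ) (hr : 0 < r) (hR : r < R) :
    IsIsometricEmbedding (torusMap R r) (metric R r hr hR 0 le_rfl) := by
  refine ⟨?_, ?_, ?_, induces_torusMap R r hr hR⟩
  · have : ContMDiff 𝓘(ℝ, ℝ × ℝ) 𝓘(ℝ, E3) ∞ (fun q => rev R r (par q)) :=
      (contMDiff_rev R r).comp contMDiff_par
    rw [torusMap_eq]
    exact this.contDiff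
  · intro x y
    simp [torusMap]
  · intro p q h
    have h0 : (R + r * Real.cos p.1) * Real.cos p.2 = (R + r * Real.cos q.1) * Real.cos q.2 := by
      have := congrArg (fun u : E3 => u 0) h
      simpa [torusMap] using this
    have h1 : (R + r * Real.cos p.1) * Real.sin p.2 = (R + r * Real.cos q.1) * Real.sin q.2 := by
      have := congrArg (fun u : E3 => u 1) h
      simpa [torusMap] using this
    have h2 : r * Real.sin p.1 = r * Real.sin q.1 := by
      have := congrArg (fun u : E3 => u 2) h
      simpa [torusMap] using this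
    have p1 : 0 < R + r * Real.cos p.1 := by nlinarith [Real.neg_one_le_cos p.1]
    have p2 : 0 < R + r * Real.cos q.1 := by nlinarith [Real.neg_one_le_cos q.1]
    have e1 : (R + r * Real.cos p.1) ^ 2 = (R + r * Real.cos q.1) ^ 2 := by
      calc (R + r * Real.cos p.1) ^ 2
          = ((R + r * Real.cos p.1) * Real.cos p.2) ^ 2
            + ((R + r * Real.cos p.1) * Real.sin p.2) ^ 2 := by
            rw [mul_pow, mul_pow, ← mul_add, Real.cos_sq_add_sin_sq, mul_one]
        _ = (R + r * Real.cos q.1) ^ 2 := by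
            rw [h0, h1, mul_pow, mul_pow, ← mul_add, Real.cos_sq_add_sin_sq, mul_one]
    have e2 : R + r * Real.cos p.1 = R + r * Real.cos q.1 := (sq_eq_sq₀ p1.le p2.le).1 e1
    have e3 : Real.cos p.1 = Real.cos q.1 := mul_left_cancel₀ hr.ne' (by linarith)
    have e4 : Real.sin p.1 = Real.sin q.1 := mul_left_cancel₀ hr.ne' h2
    rw [e2] at h0 h1
    have e5 : Real.cos p.2 = Real.cos q.2 := mul_left_cancel₀ p2.ne' h0
    have e6 : Real.sin p.2 = Real.sin q.2 := mul_left_cancel₀ p2.ne' h1
    have key : ∀ x y : ℝ, Real.cos x = Real.cos y → Real.sin x = Real.sin y →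
        ∃ m : ℤ, y = x + m * (2 * Real.pi) := by
      intro x y hc hs
      have h3 : (x : Real.Angle) = y := Real.Angle.cos_sin_inj hc hs
      rw [Real.Angle.angle_eq_iff_two_pi_dvd_sub] at h3
      obtain ⟨k, hk⟩ := h3
      refine ⟨-k, ?_⟩
      push_cast
      linarith
    obtain ⟨m, hm⟩ := key _ _ e3 e4
    obtain ⟨n, hn⟩ := key _ _ e5 e6
    exact ⟨m, n, Prod.ext hm hn⟩

theorem tensorNorm_metric (R r : ℝ) (hr : 0 < r) (hR : r < R) (t : ℝ) (ht : 0 ≤ t) (p : ℝ × ℝ) :
    tensorNorm (metric R r hr hR 0 le_rfl) (metric R r hr hR t ht) p = t / r ^ 2 := by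
  have h1 : 0 < R + r * Real.cos p.1 := by nlinarith [Real.neg_one_le_cos p.1]
  have hinv : (!![r ^ 2 + 0, 0; 0, (R + r * Real.cos p.1) ^ 2] : Matrix (Fin 2) (Fin 2) ℝ)⁻¹ =
      !![(r ^ 2)⁻¹, 0; 0, ((R + r * Real.cos p.1) ^ 2)⁻¹] := by
    apply Matrix.inv_eq_right_inv
    ext i j
    have := h1.ne'
    have := hr.ne'
    fin_cases i <;> fin_cases j <;> simp [Matrix.mul_apply, Fin.sum_univ_two] <;> field_simp
  unfold tensorNorm
  simp only [metric]
  rw [hinv]
  have : (!![(r ^ 2)⁻¹, 0; 0, ((R + r * Real.cos p.1) ^ 2)⁻¹] *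
      (!![r ^ 2 + t, 0; 0, (R + r * Real.cos p.1) ^ 2]
        - !![r ^ 2 + 0, 0; 0, (R + r * Real.cos p.1) ^ 2]) *
      !![(r ^ 2)⁻¹, 0; 0, ((R + r * Real.cos p.1) ^ 2)⁻¹] *
      (!![r ^ 2 + t, 0; 0, (R + r * Real.cos p.1) ^ 2]
        - !![r ^ 2 + 0, 0; 0, (R + r * Real.cos p.1) ^ 2])).trace = (t / r ^ 2) ^ 2 := by
    simp [Matrix.trace, Matrix.mul_apply, Fin.sum_univ_two]
    have := hr.ne'
    field_simp
  rw [this, Real.sqrt_sq (by positivity)]

theorem notImmersible (R r : ℝ) (hr : 0 < r) (hR : r < R) (t : ℝ) (ht : 0 < t) :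
    NotImmersible (metric R r hr hR t ht.le) := by
  intro F hF hper hind
  exact no_iso R r hr hR t ht F hF (fun x y => (hper x y).1) (fun x y => (hper x y).2)
    (fun p => by simpa [metric, coordVec, D] using hind p 0 0)
    (fun p => by simpa [metric, coordVec, D] using hind p 0 1)
    (fun p => by simpa [metric, coordVec, D] using hind p 1 1)

/-- **The answer is negative.** Let `0 < r < R`. The metric `g₀` induced on the torus by the smooth
embedding `torusMap R r` (torus of revolution) has the following properties: for every `t > 0` the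
metric `g₀ + t dα²` is not induced by any `C³` map to `ℝ³`; in particular, for every `ε > 0` there is
a smooth Riemannian metric `g` with `|g - g₀|_{g₀} < ε` everywhere which is not induced by any `C³`
map (so there is no smooth isometric embedding, nor immersion) of the torus in `ℝ³`. -/
theorem result : ∀ r R : ℝ, 0 < r → r < R → ∃ g₀ : Metric,
    IsIsometricEmbedding (torusMap R r) g₀ ∧
    (∀ t : ℝ, 0 < t → ∃ g : Metric,
      (∀ p, g.coeff p = g₀.coeff p + !![t, 0; 0, 0]) ∧ NotImmersible g) ∧
    ∀ ε : ℝ, 0 < ε → ∃ g : Metric, (∀ p, tensorNorm g₀ g p < ε) ∧ NotImmersible g := by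
  intro r R hr hR
  refine ⟨metric R r hr hR 0 le_rfl, embedding_torusMap R r hr hR, ?_, ?_⟩
  · intro t ht
    refine ⟨metric R r hr hR t ht.le, ?_, notImmersible R r hr hR t ht⟩
    intro p
    ext i j
    fin_cases i <;> fin_cases j <;> simp [metric]
  · intro ε hε
    have ht : 0 < ε / 2 * r ^ 2 := by positivity
    refine ⟨metric R r hr hR (ε / 2 * r ^ 2) ht.le, fun p => ?_, notImmersible R r hr hR _ ht⟩
    rw [tensorNorm_metric]
    have := hr.ne'
    field_simp
    linarith

end Pool.Agent.Results.MP_665542_gt.TorusOfRevolution
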